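import Pool.Agent.V5helper48.HP.Red
import Pool.Agent.R410.EP.Sep

/-!
# Tate's form of the Birch–Swinnerton-Dyer conjecture: reduction from the function fields of the quotients of products of hyperelliptic curves to the function fields of the curves

Let `K` be a finitely generated field of characteristic zero, of transcendence degree `e` over `ℚ`, and
`X : Y² = F₀(X)` a hyperelliptic curve of any genus over `K`, `F₀` monic and separable of odd degree, `J` its
Jacobian.  Let `C_i : y_i² = f_i(x_i)`, `i < r`, be double coverings of the line over `K`, where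
the `f_i` are arbitrary separable polynomials of positive degree, and `L = K(x_1, y_1, ..., x_r, y_r)` the
function field of `C_1 × ... × C_r`.  Let `E` be any field with `K(x_1, ..., x_r) ⊆ E ⊆ L`: these are the
function fields of the quotients of the product by the groups of the products of the hyperelliptic
involutions, for instance of the product itself, or of the Kummer-type variety
`z² = f_1(x_1) ⋯ f_r(x_r)`.  Let `I` be the set of the `i` with `y_i ∈ E`.  No hypothesis is made on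
the conjecture for `X`.

* (Rank.) There are cardinals `ρ`, `κ_i` such that the ranks of `J` over `K`, over `K(x_i, y_i)`, `i ∈ I`,
  and over `E` are `ρ`, `ρ + κ_i` and `ρ + ∑_{i ∈ I} κ_i`.
* (L-functions.) Let `n = e + r + 1` be the dimension of the models of `E`.  For all models, the Euler products
  `Φ₁` of `X` over `E`, over `K` and over `K(x_i, y_i)` satisfy, for `Re s > n + 1/2`,
  `Φ_E(s) Φ_K(s - r) ^ #I = H(s) Φ_K(s - r) ∏_{i ∈ I} Φ_i(s - r + 1)`, where `H` is holomorphic without zeros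
  on the whole strip, `Re s > n - 1/2`.
* (Orders.) If `Φ_K` and the `Φ_i`, `i ∈ I`, continue meromorphically to neighbourhoods of the rays
  `[e + 1, ∞)`, `[e + 2, ∞)`, with the orders `m₀`, `m_i` at the end points, then, for all models, so does
  `Φ_E` to a neighbourhood of `[n, ∞)`, with the order `m₀ + ∑_{i ∈ I} (m_i - m₀)` at `n`.
* (Tate's conjecture.) If Tate's conjecture (the rank is finite and equal to the order) holds for `X` over `K`
  and over the fields `K(x_i, y_i)`, `i ∈ I`, then it holds for `X` over `E`.  If `I` is empty, for instance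
  for the Kummer-type varieties, `r ≥ 2`, it holds for `X` over `E` if and only if it holds for `X` over `K`.
-/

set_option autoImplicit false

namespace Pool.Agent.Results.MP_9faec4_nt.FunctionFieldReduction

open Polynomial

/-- `L = K(x_1, y_1, ..., x_r, y_r)` is the function field of the product of the curves
`y_i² = f_i(x_i)`. -/
structure IsFunctionField {K L : Type} [Field K] [Field L] [Algebra K L] {r : ℕ} (f : Fin r → K[X])
    (x y : Fin r → L) : Prop where
  indep : AlgebraicIndependent K x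
  curve : ∀ i, y i ^ 2 = aeval (x i) (f i)
  gen : IntermediateField.adjoin K (Set.range x ∪ Set.range y) = ⊤

/-- The rank of the class group of the ring `L[X, Y] / (Y² - F(X))` is `ρ`. -/
def HasRank {L : Type} [Field L] (F : L[X]) (ρ : Cardinal.{0}) : Prop :=
  ∃ _ : IsDomain (AdjoinRoot (X ^ 2 - C F : L[X][X])),
    Module.rank ℤ (Additive (ClassGroup (AdjoinRoot (X ^ 2 - C F : L[X][X])))) = ρ

/-- The number of the points `(x, y)` of the affine curve `y² = g(x)` over the algebraic closure of the field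
`k` with `x ^ n = x` and `y ^ n = y`: if `k` has `q` elements and `n = q ^ j`, these are the points over the
extension of `k` of degree `j`. -/
noncomputable def points (k : Type) [Field k] (g : k[X]) (n : ℕ) : ℕ :=
  Nat.card {P : AlgebraicClosure k × AlgebraicClosure k //
    P.1 ^ n = P.1 ∧ P.2 ^ n = P.2 ∧ P.2 ^ 2 = aeval P.1 g}

/-- The number `q_y` of the elements of the residue field of a closed point. -/
noncomputable def norm {R : Type} [CommRing R] (y : MaximalSpectrum R) : ℕ := Nat.card (R ⧸ y.asIdeal)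

/-- The trace on `H¹` of the `j`-th power of the Frobenius of the fibre of the curve `Y² = G(X)`: the number
`q_y ^ j - #(affine points of the fibre over the extension of degree j)`. -/
noncomputable def trace {R : Type} [CommRing R] (G : R[X]) (y : MaximalSpectrum R) (j : ℕ) : ℝ :=
  letI : Field (R ⧸ y.asIdeal) := Ideal.Quotient.field y.asIdeal
  ((norm y ^ j : ℕ) : ℝ) - points (R ⧸ y.asIdeal) (G.map (Ideal.Quotient.mk y.asIdeal)) (norm y ^ j)

/-- The local factor `det(1 - Frob_y T | H¹)⁻¹ = exp (∑_{j ≥ 1} a_j T ^ j / j)`. -/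
noncomputable def factor {R : Type} [CommRing R] (G : R[X]) (y : MaximalSpectrum R) (T : ℂ) : ℂ :=
  Complex.exp (∑' j : ℕ, (trace G y (j + 1) : ℂ) / ((j + 1 : ℕ) : ℂ) * T ^ (j + 1))

/-- A model of the curve `Y² = F(X)` over the field `L`: the curve `Y² = G(X)` over `Spec R[1/N]`, where
`R` is an integral domain, finitely generated over `ℤ`, with the field of fractions `L`, and the monic
polynomial `G` is `F` over `L`. -/
structure IsModel {L R : Type} [Field L] [CommRing R] [Algebra R L] (F : L[X]) (G : R[X]) (N : R) :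
    Prop where
  domain : IsDomain R
  finiteType : Algebra.FiniteType ℤ R
  fraction : IsFractionRing R L
  monic : G.Monic
  map : G.map (algebraMap R L) = F
  ne : N ≠ 0

/-- The Euler product over the closed points of `Spec R[1/N]` converges at `s` to `z`. -/
def IsValue {R : Type} [CommRing R] (G : R[X]) (N : R) (s z : ℂ) : Prop :=
  HasProd (fun y : {y : MaximalSpectrum R // N ∉ y.asIdeal} => factor G y.1 ((norm y.1 : ℂ) ^ (-s))) z

/-- The Euler product converges for `Re s > n + 1/2` and it continues to a meromorphic function on a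
neighbourhood of this half-plane and of the ray `[n, ∞)`, with the order `m` at `n`. -/
def HasOrder {R : Type} [CommRing R] (G : R[X]) (N : R) (n : ℕ) (m : ℤ) : Prop :=
  ∃ (U : Set ℂ) (Φ : ℂ → ℂ), IsOpen U ∧ (∀ s : ℂ, (n : ℝ) + 1 / 2 < s.re → s ∈ U) ∧
    (∀ t : ℝ, (n : ℝ) ≤ t → (t : ℂ) ∈ U) ∧ MeromorphicOn Φ U ∧
    (∀ s : ℂ, (n : ℝ) + 1 / 2 < s.re → IsValue G N s (Φ s)) ∧
    meromorphicOrderAt Φ (n : ℂ) = (m : WithTop ℤ)

/-- The order for some model of `Y² = F(X)`. -/
def OrderSome {L : Type} [Field L] (F : L[X]) (n : ℕ) (m : ℤ) : Prop :=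
  ∃ (R : Type) (_ : CommRing R) (_ : Algebra R L) (G : R[X]) (N : R), IsModel F G N ∧ HasOrder G N n m

/-- The order for all models of `Y² = F(X)`. -/
def OrderAll {L : Type} [Field L] (F : L[X]) (n : ℕ) (m : ℤ) : Prop :=
  ∀ (R : Type) [CommRing R] [Algebra R L] (G : R[X]) (N : R), IsModel F G N → HasOrder G N n m

/-- **Tate's conjecture** for the curve `Y² = F(X)` over the finitely generated field `L`, for all models:
`n` is the dimension of the models. -/
def Tate {L : Type} [Field L] (F : L[X]) (n : ℕ) : Prop :=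
  ∃ ρ : ℕ, HasRank F ρ ∧ OrderSome F n ρ ∧ OrderAll F n ρ

/-- The polynomial `F₀` over the field `K(x, y)`. -/
noncomputable def overCurve {K L : Type} [Field K] [Field L] [Algebra K L] (F₀ : K[X]) (x y : L) :
    (IntermediateField.adjoin K {x, y})[X] :=
  F₀.map (algebraMap K (IntermediateField.adjoin K {x, y}))

open Classical in
/-- The set of the `i` with `y_i ∈ E`. -/
noncomputable def indices {K L : Type} [Field K] [Field L] [Algebra K L] {r : ℕ} (y : Fin r → L)
    (E : IntermediateField K L) : Finset (Fin r) := Finset.univ.filter (fun i => y i ∈ E)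

/-- The law of the ranks: the ranks over `K`, over `K(x_i, y_i)`, `y_i ∈ E`, and over `E` are `ρ`, `ρ + κ_i`
and `ρ + ∑ κ_i`. -/
def RankLaw {K L : Type} [Field K] [Field L] [Algebra K L] {r : ℕ} (F₀ : K[X]) (x y : Fin r → L)
    (E : IntermediateField K L) : Prop :=
  ∃ (ρ : Cardinal.{0}) (κ : Fin r → Cardinal.{0}), HasRank F₀ ρ ∧
    (∀ i ∈ indices y E, HasRank (overCurve F₀ (x i) (y i)) (ρ + κ i)) ∧
    HasRank (F₀.map (algebraMap K E)) (ρ + ∑ i ∈ indices y E, κ i)

/-- The law of the Euler products, where `n` is the dimension of the models of `E`. -/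
def EulerLaw {K L : Type} [Field K] [Field L] [Algebra K L] {r : ℕ} (F₀ : K[X]) (x y : Fin r → L)
    (E : IntermediateField K L) (n : ℕ) : Prop :=
  ∀ (R : Type) [CommRing R] [Algebra R E] (G : R[X]) (N : R), IsModel (F₀.map (algebraMap K E)) G N →
  ∀ (R₀ : Type) [CommRing R₀] [Algebra R₀ K] (G₀ : R₀[X]) (N₀ : R₀), IsModel F₀ G₀ N₀ →
  ∀ (S : Fin r → Type) [∀ i, CommRing (S i)]
    [∀ i, Algebra (S i) (IntermediateField.adjoin K {x i, y i})] (g : ∀ i, (S i)[X]) (ν : ∀ i, S i),
    (∀ i ∈ indices y E, IsModel (overCurve F₀ (x i) (y i)) (g i) (ν i)) →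
  ∃ H : ℂ → ℂ, DifferentiableOn ℂ H {s : ℂ | (n : ℝ) - 1 / 2 < s.re} ∧ (∀ s, H s ≠ 0) ∧
    ∀ s : ℂ, (n : ℝ) + 1 / 2 < s.re → ∃ (z z₀ : ℂ) (z' : Fin r → ℂ),
      IsValue G N s z ∧ IsValue G₀ N₀ (s - r) z₀ ∧
      (∀ i ∈ indices y E, IsValue (g i) (ν i) (s - r + 1) (z' i)) ∧
      z ≠ 0 ∧ z₀ ≠ 0 ∧ (∀ i ∈ indices y E, z' i ≠ 0) ∧
      z * z₀ ^ (indices y E).card = H s * z₀ * ∏ i ∈ indices y E, z' i

/-- The law of the orders, where `e + 1`, `e + 2` and `e + r + 1` are the dimensions of the models of `K`,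
`K(x_i, y_i)` and `E`. -/
def OrderLaw {K L : Type} [Field K] [Field L] [Algebra K L] {r : ℕ} (F₀ : K[X]) (x y : Fin r → L)
    (E : IntermediateField K L) (e : ℕ) : Prop :=
  ∀ (m₀ : ℤ) (m : Fin r → ℤ), OrderSome F₀ (e + 1) m₀ →
    (∀ i ∈ indices y E, OrderSome (overCurve F₀ (x i) (y i)) (e + 2) (m i)) →
    OrderAll (F₀.map (algebraMap K E)) (e + r + 1) (m₀ + ∑ i ∈ indices y E, (m i - m₀))

/-- **The reduction of Tate's conjecture from the fields between `K(x_1, ..., x_r)` and the function field of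
`C_1 × ... × C_r` to `K` and the function fields of the `C_i`.** -/
theorem result {K : Type} [Field K] [CharZero K]
    (hK : ∃ S : Finset K, Subfield.closure (S : Set K) = ⊤) {e : ℕ} (he : Algebra.trdeg ℚ K = e)
    {F₀ : K[X]} (hF₀ : F₀.Monic ∧ Odd F₀.natDegree ∧ F₀.Separable)
    {r : ℕ} {f : Fin r → K[X]} (hf : ∀ i, 0 < (f i).natDegree ∧ (f i).Separable) :
    -- the function field exists
    (∃ (L : Type) (_ : Field L) (_ : Algebra K L) (x y : Fin r → L), IsFunctionField f x y) ∧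
    ∀ (L : Type) [Field L] [CharZero L] [Algebra K L] (x y : Fin r → L), IsFunctionField f x y →
    ∀ E : IntermediateField K L, (∀ i, x i ∈ E) →
      Algebra.trdeg ℚ E = (e + r : ℕ) ∧
      RankLaw F₀ x y E ∧ EulerLaw F₀ x y E (e + r + 1) ∧ OrderLaw F₀ x y E e ∧
      (Tate F₀ (e + 1) → (∀ i ∈ indices y E, Tate (overCurve F₀ (x i) (y i)) (e + 2)) →
        Tate (F₀.map (algebraMap K E)) (e + r + 1)) ∧
      ((∀ i, y i ∉ E) → (Tate (F₀.map (algebraMap K E)) (e + r + 1) ↔ Tate F₀ (e + 1))) := by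
  classical
  have c1 : ∀ {L R : Type} [Field L] [CommRing R] [Algebra R L] {F : L[X]} {G : R[X]} {N : R},
      IsModel F G N → Pool.Agent.V5helper48.HP.Mdl F G N := fun h =>
    ⟨h.domain, h.finiteType, h.fraction, h.monic, h.map, h.ne⟩
  have c2 : ∀ {L R : Type} [Field L] [CommRing R] [Algebra R L] {F : L[X]} {G : R[X]} {N : R},
      Pool.Agent.V5helper48.HP.Mdl F G N → IsModel F G N := fun h =>
    ⟨h.domain, h.finiteType, h.fraction, h.monic, h.map, h.ne⟩
  have c3 : ∀ {L : Type} [Field L] {F : L[X]} {n : ℕ} {m : ℤ}, OrderSome F n m →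
      Pool.Agent.V5helper48.HP.SO F n m := by
    rintro L _ F n m ⟨R, c, a, G, N, h1, h2⟩
    exact ⟨R, c, a, G, N, c1 h1, h2⟩
  have c4 : ∀ {L : Type} [Field L] {F : L[X]} {n : ℕ} {m : ℤ},
      Pool.Agent.V5helper48.HP.SO F n m → OrderSome F n m := by
    rintro L _ F n m ⟨R, c, a, G, N, h1, h2⟩
    exact ⟨R, c, a, G, N, c2 h1, h2⟩
  have c5 : ∀ {L : Type} [Field L] {F : L[X]} {n : ℕ} {m : ℤ},
      Pool.Agent.V5helper48.HP.AO F n m → OrderAll F n m := by
    intro L _ F n m h R _ _ G N h1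
    exact h R G N (c1 h1)
  have hF₀1 := hF₀.1
  have hF₀2 := hF₀.2.1
  have hF₀3 := hF₀.2.2
  refine ⟨?_, ?_⟩
  · obtain ⟨L, i1, i2, x, y, h1, h2, h3⟩ := Pool.Agent.N863.PE.exists_ffc f
    exact ⟨L, i1, i2, x, y, h1, h2, h3⟩
  intro L _ _ _ x y hfun E hE
  have hx := hfun.indep
  have hy := hfun.curve
  have htop := hfun.gen
  have hpos : ∀ i, 0 < (f i).natDegree := fun i => (hf i).1
  have hfs : ∀ i, (f i).Separable := fun i => (hf i).2
  obtain ⟨hfgE, htrE⟩ := Pool.Agent.V5helper48.HP.fgM hK he hx hpos hfs hy htop E hE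
  have hrank := Pool.Agent.V5helper48.HP.red_rank hx hpos hfs hy htop hF₀1 hF₀2 hF₀3 E hE
  have horder : ∀ (m₀ : ℤ) (m : Fin r → ℤ), OrderSome F₀ (e + 1) m₀ →
        (∀ i, y i ∈ E →
          OrderSome (F₀.map (algebraMap K (IntermediateField.adjoin K {x i, y i}))) (e + 2) (m i)) →
        Pool.Agent.V5helper48.HP.AO (F₀.map (algebraMap K E)) (e + r + 1)
          (m₀ + ∑ i ∈ Finset.univ.filter (fun i => y i ∈ E), (m i - m₀)) := by
    intro m₀ m h₀ hi
    exact Pool.Agent.V5helper48.HP.red_order hK he hx hpos hfs hy htop hF₀1 hF₀2 E hE (c3 h₀)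
      (fun i hi' => c3 (hi i hi'))
  have hmE : (F₀.map (algebraMap K E)).Monic := hF₀1.map _
  have htate : Tate F₀ (e + 1) →
        (∀ i, y i ∈ E → Tate (F₀.map (algebraMap K (IntermediateField.adjoin K {x i, y i}))) (e + 2)) →
        Tate (F₀.map (algebraMap K E)) (e + r + 1) := by
    rintro ⟨ρ₀, ⟨q1, q2⟩, q3, -⟩ hi
    obtain ⟨ρ, κ, ⟨t1, t2⟩, t3, t4⟩ := hrank
    have hρ : ρ = (ρ₀ : Cardinal) := t2.symm.trans q2
    have h1 : ∀ i, y i ∈ E → ∃ ρi : ℕ, κ i = ((ρi - ρ₀ : ℕ) : Cardinal) ∧ ρ₀ ≤ ρi ∧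
        OrderSome (F₀.map (algebraMap K (IntermediateField.adjoin K {x i, y i}))) (e + 2) (ρi : ℤ) := by
      intro i hiE
      obtain ⟨ρi, ⟨a1, a2⟩, a3, -⟩ := hi i hiE
      obtain ⟨b1, b2⟩ := t3 i hiE
      have h2 : (ρi : Cardinal.{0}) = ρ₀ + κ i := by
        rw [← hρ]
        exact a2.symm.trans b2
      obtain ⟨h3, h4⟩ := Pool.Agent.V5helper48.HP.rank_fin h2
      exact ⟨ρi, h4, h3, a3⟩
    choose! σ s1 s2 s3 using h1
    have h5 := horder (ρ₀ : ℤ) (fun i => (σ i : ℤ)) q3 s3
    have h6 : ((ρ₀ : ℤ) + ∑ i ∈ Finset.univ.filter (fun i => y i ∈ E), ((σ i : ℤ) - ρ₀)) =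
        ((ρ₀ + ∑ i ∈ Finset.univ.filter (fun i => y i ∈ E), (σ i - ρ₀) : ℕ) : ℤ) := by
      push_cast
      congr 1
      refine Finset.sum_congr rfl fun i hi' => ?_
      rw [Finset.mem_filter] at hi'
      rw [Nat.cast_sub (s2 i hi'.2)]
    rw [h6] at h5
    refine ⟨ρ₀ + ∑ i ∈ Finset.univ.filter (fun i => y i ∈ E), (σ i - ρ₀), ?_,
      c4 (Pool.Agent.V5helper48.HP.SO_of_AO hfgE hmE h5), c5 h5⟩
    obtain ⟨u1, u2⟩ := t4
    refine ⟨u1, u2.trans ?_⟩
    rw [hρ]
    push_cast
    congr 1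
    refine Finset.sum_congr rfl fun i hi' => ?_
    rw [Finset.mem_filter] at hi'
    exact s1 i hi'.2
  have hmem : ∀ i, i ∈ indices y E ↔ y i ∈ E := by
    intro i
    unfold indices
    simp
  refine ⟨htrE, ?_, ?_, fun m₀ m h₀ hi => c5 (horder m₀ m h₀ fun i hi' => hi i ((hmem i).2 hi')),
    fun h₀ hi => htate h₀ fun i hi' => hi i ((hmem i).2 hi'), ?_⟩
  · obtain ⟨ρ, κ, q1, q2, q3⟩ := hrank
    exact ⟨ρ, κ, q1, fun i hi => q2 i ((hmem i).1 hi), q3⟩
  · intro R _ _ G N hG R₀ _ _ G₀ N₀ hG₀ S _ _ g ν hg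
    obtain ⟨H, h1, h2, h3⟩ := Pool.Agent.V5helper48.HP.red_ep hK he hx hpos hfs hy htop hF₀1 hF₀2 E hE
      (I := indices y E) hmem (c1 hG) (c1 hG₀) (fun i hi => c1 (hg i ((hmem i).2 hi)))
    refine ⟨H, h1, h2, fun s hs => ?_⟩
    obtain ⟨z, z₀, z', a1, a2, a3, a4, a5, a6, a7⟩ := h3 s hs
    exact ⟨z, z₀, z', a1, a2, a3, a4, a5, a6, a7⟩
  · intro hI
    have hfil : Finset.univ.filter (fun i => y i ∈ E) = ∅ := by
      rw [Finset.filter_eq_empty_iff]
      intro i _
      exact hI i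
    constructor
    · rintro ⟨ρE, ⟨q1, q2⟩, q3, -⟩
      obtain ⟨ρ, κ, t1, -, ⟨u1, u2⟩⟩ := hrank
      rw [hfil, Finset.sum_empty, add_zero] at u2
      have hρ : ρ = (ρE : Cardinal) := u2.symm.trans q2
      have h1 := Pool.Agent.V5helper48.HP.red_back hK he hx hpos hfs hy htop hF₀1 hF₀2 E hE hI (c3 q3)
      refine ⟨ρE, ?_, c4 (Pool.Agent.V5helper48.HP.SO_of_AO hK hF₀1 h1), c5 h1⟩
      rw [← hρ]
      exact t1
    · intro h
      exact htate h fun i hi => absurd hi (hI i)

end Pool.Agent.Results.MP_9faec4_nt.FunctionFieldReduction
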