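import Pool.Agent.V5helper48.HP.PenM
import Pool.Agent.V5helper48.HP.Red
import Pool.Agent.N863.PE.Exf
import Pool.Agent.R410.EP.Sep

/-!
# Tate's form of the Birch–Swinnerton-Dyer conjecture: the Jacobians of the hyperelliptic curves of linear pencils over the function fields of products of hyperelliptic curves of linear pencils and of their quotients

Let `M` be a finitely generated field of characteristic zero and of transcendence degree `d` over `ℚ`, and
let `K = M(w)` be the field of rational functions over `M`.  Let `X : Y² = F₀(X)` be a hyperelliptic curve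
of any genus over `K`, where `F₀ = c₀ + w b₀`, `b₀, c₀ ∈ M[X]`, `c₀` is monic of odd degree, `b₀ ≠ 0`
and `deg b₀ < deg c₀`, and let `C_i : y² = c_i(x) + w b_i(x)`, for `i < r`, be hyperelliptic curves over `K`
of arbitrary genera, with the same conditions.  All these polynomials are separable over `K`.  Let
`L = K(x_1, y_1, ..., x_r, y_r)` be the function field of the product `C_1 × ... × C_r` over `K`, and let
`E` be any field with `K(x_1, ..., x_r) ⊆ E ⊆ L`.  These are the function fields of the quotients of the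
product by all groups of products of the hyperelliptic involutions: for instance of the product itself,
of the Kummer-type variety `z² = F_1(x_1) ⋯ F_r(x_r)` and of the products of such varieties.  Let
`J` be the Jacobian of `X`: `J(E)` is the class group of the ring `E[X, Y] / (Y² - F₀(X))`, since `X` has one
point at infinity and it is rational.

We prove Tate's conjecture (Q1) for `X` over `E`, with `n = d + r + 2 = trdeg E + 1`, the dimension of
the models.

* The rank of `J(E)` is finite and equal to `ρ + ∑_i (ρ_i - ρ)`, the sum over the `i` with `y_i ∈ E`, where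
  `ρ ≤ ρ_i`.  Here `ρ` is the number of
  the monic irreducible divisors `δ` of `b₀` in `M[X]` such that `c₀` is a nonzero square modulo `δ`, and
  `ρ_i = σ_i - ε_i`, for the function field `M(x)`, where `σ_i` is the number of the
  monic irreducible `δ ∈ M(x)[X]` such that `a T² + c`, with `a = b₀(X) / b_i(x)` and
  `c = c₀(X) - (c_i(x) / b_i(x)) b₀(X)`, is modulo `δ` the square of a nonzero polynomial `r T + s`, and
  `ε_i = 1` if `a` is a square, and `ε_i = 0` otherwise.
* For each integral domain `R`, finitely generated over `ℤ` and with the field of fractions `E`, each monic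
  `G ∈ R[X]` which is `F₀` over `E`, and each `N ≠ 0` in `R`, the Euler product over the closed
  points `y` of `Spec R[1/N]` converges for `Re s > n + 1/2`, it continues to an analytic
  function for `Re s > n` which is meromorphic at `s = n`, and its order of vanishing there is the rank of
  `J(E)`.  The local factor `P_{y,1}(q_y^{-s})⁻¹` is `exp (∑_{j ≥ 1} a_j T ^ j / j)`, where `T = q_y ^ {-s}` and
  `a_j = q_y ^ j - #(affine points over the extension of degree j)` is the trace on `H¹` of the `j`-th power of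
  the Frobenius of the fibre.  For suitable `N` all fibres are smooth.
-/

set_option autoImplicit false

namespace Pool.Agent.Results.MP_9faec4_nt.HyperellipticPencilQuotients

open Polynomial

/-- The polynomial `c(X) + w b(X)` over `K`. -/
noncomputable def pencil {M K : Type} [Field M] [Field K] [Algebra M K] (b c : M[X]) (w : K) : K[X] :=
  c.map (algebraMap M K) + C w * b.map (algebraMap M K)

/-- `L = K(x_1, y_1, ..., x_r, y_r)` is the function field of the product of the curves
`y_i² = F_i(x_i)`. -/
structure IsFunctionField {K L : Type} [Field K] [Field L] [Algebra K L] {r : ℕ} (F : Fin r → K[X])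
    (x y : Fin r → L) : Prop where
  indep : AlgebraicIndependent K x
  curve : ∀ i, y i ^ 2 = aeval (x i) (F i)
  gen : IntermediateField.adjoin K (Set.range x ∪ Set.range y) = ⊤

/-- The rank of the class group of the ring `L[X, Y] / (Y² - F(X))` is `n`. -/
def ClassGroupHasRank {L : Type} [Field L] (F : L[X]) (n : ℕ) : Prop :=
  ∃ _ : IsDomain (AdjoinRoot (X ^ 2 - C F : L[X][X])),
    Module.rank ℤ (Additive (ClassGroup (AdjoinRoot (X ^ 2 - C F : L[X][X])))) = n

/-- Modulo `δ`, the polynomial `a T² + b T + c` is the square of a nonzero polynomial `r T + s`. -/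
def IsSplit {M : Type} [Field M] (a b c δ : M[X]) : Prop :=
  ∃ r s : M[X], δ ∣ a - r ^ 2 ∧ δ ∣ b - 2 * r * s ∧ δ ∣ c - s ^ 2 ∧ ¬ (δ ∣ r ∧ δ ∣ s)

/-- The number of the monic irreducible polynomials over which the conic splits. -/
noncomputable def sigma {M : Type} [Field M] (a b c : M[X]) : ℕ :=
  Nat.card {δ : M[X] // δ.Monic ∧ Irreducible δ ∧ IsSplit a b c δ}

open Classical in
/-- `σ - 1` if `a` is a nonzero square, and `σ` otherwise. -/
noncomputable def rho {M : Type} [Field M] (a b c : M[X]) : ℕ :=
  sigma a b c - if a ≠ 0 ∧ IsSquare a then 1 else 0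

/-- The polynomial `b(x)⁻¹ b'(X)` over `M(x)`. -/
noncomputable def overB {M : Type} [Field M] (b b' : M[X]) : (RatFunc M)[X] :=
  C (aeval (RatFunc.X : RatFunc M) b)⁻¹ * b'.map (algebraMap M (RatFunc M))

/-- The polynomial `c'(X) - (c(x) / b(x)) b'(X)` over `M(x)`. -/
noncomputable def overC {M : Type} [Field M] (b c b' c' : M[X]) : (RatFunc M)[X] :=
  c'.map (algebraMap M (RatFunc M)) -
    C (aeval (RatFunc.X : RatFunc M) c * (aeval (RatFunc.X : RatFunc M) b)⁻¹) *
      b'.map (algebraMap M (RatFunc M))

/-- The number `ρ` for `Y² = c₀(X) + w b₀(X)` over `M(w)`. -/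
noncomputable def rhoBase {M : Type} [Field M] (b₀ c₀ : M[X]) : ℕ := rho 0 b₀ c₀

/-- The number `ρ_i` for `Y² = c₀(X) + w b₀(X)` over the function field of `y² = c(x) + w b(x)`. -/
noncomputable def rhoCurve {M : Type} [Field M] (b₀ c₀ b c : M[X]) : ℕ :=
  rho (overB b b₀) 0 (overC b c b₀ c₀)

/-- The number of the points `(x, y)` of the affine curve `y² = g(x)` over the algebraic closure of the field
`k` with `x ^ n = x` and `y ^ n = y`: if `k` has `q` elements and `n = q ^ j`, these are the points over the
extension of `k` of degree `j`. -/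
noncomputable def points (k : Type) [Field k] (g : k[X]) (n : ℕ) : ℕ :=
  Nat.card {P : AlgebraicClosure k × AlgebraicClosure k //
    P.1 ^ n = P.1 ∧ P.2 ^ n = P.2 ∧ P.2 ^ 2 = aeval P.1 g}

/-- The number `q_y` of the elements of the residue field of a closed point. -/
noncomputable def norm {R : Type} [CommRing R] (y : MaximalSpectrum R) : ℕ := Nat.card (R ⧸ y.asIdeal)

/-- The trace on `H¹` of the `j`-th power of the Frobenius of the fibre of the curve `Y² = G(X)`: the number
`q_y ^ j - #(affine points of the fibre over the extension of degree j)`. -/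
noncomputable def trace {R : Type} [CommRing R] (G : R[X]) (y : MaximalSpectrum R) (j : ℕ) : ℝ :=
  letI : Field (R ⧸ y.asIdeal) := Ideal.Quotient.field y.asIdeal
  ((norm y ^ j : ℕ) : ℝ) - points (R ⧸ y.asIdeal) (G.map (Ideal.Quotient.mk y.asIdeal)) (norm y ^ j)

/-- The local factor `det(1 - Frob_y T | H¹)⁻¹ = exp (∑_{j ≥ 1} a_j T ^ j / j)`. -/
noncomputable def factor {R : Type} [CommRing R] (G : R[X]) (y : MaximalSpectrum R) (T : ℂ) : ℂ :=
  Complex.exp (∑' j : ℕ, (trace G y (j + 1) : ℂ) / ((j + 1 : ℕ) : ℂ) * T ^ (j + 1))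

open Classical in
/-- **Tate's conjecture, rank and order, for the Jacobians of the hyperelliptic curves of linear pencils of
every genus over all the fields `E` between `K(x_1, ..., x_r)` and the function field of a product of
arbitrary many hyperelliptic curves of linear pencils over `K = M(w)`, for an arbitrary finitely generated
field `M` of characteristic zero.** -/
theorem result {M : Type} [Field M] [CharZero M]
    (hM : ∃ S : Finset M, Subfield.closure (S : Set M) = ⊤) {d : ℕ} (hd : Algebra.trdeg ℚ M = d)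
    {K : Type} [Field K] [CharZero K] [Algebra M K] {w : K} (hw : Transcendental M w)
    (hK : IntermediateField.adjoin M {w} = ⊤)
    {b₀ c₀ : M[X]} (hc₀ : c₀.Monic ∧ Odd c₀.natDegree) (hb₀ : b₀ ≠ 0 ∧ b₀.natDegree < c₀.natDegree)
    (hs₀ : (pencil b₀ c₀ w).Separable)
    {r : ℕ} {b c : Fin r → M[X]} (hc : ∀ i, (c i).Monic ∧ Odd (c i).natDegree)
    (hb : ∀ i, b i ≠ 0 ∧ (b i).natDegree < (c i).natDegree)
    (hs : ∀ i, (pencil (b i) (c i) w).Separable) :
    -- the function field exists
    (∃ (L : Type) (_ : Field L) (_ : Algebra K L) (x y : Fin r → L),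
      IsFunctionField (fun i => pencil (b i) (c i) w) x y) ∧
    ∀ (L : Type) [Field L] [CharZero L] [Algebra K L] (x y : Fin r → L),
      IsFunctionField (fun i => pencil (b i) (c i) w) x y →
      ∀ E : IntermediateField K L, (∀ i, x i ∈ E) →
      Algebra.trdeg ℚ E = (d + r + 1 : ℕ) ∧
      -- the rank of the Jacobian
      (∀ i, rhoBase b₀ c₀ ≤ rhoCurve b₀ c₀ (b i) (c i)) ∧
      ClassGroupHasRank ((pencil b₀ c₀ w).map (algebraMap K E))
        (rhoBase b₀ c₀ + ∑ i ∈ Finset.univ.filter (fun i => y i ∈ E),
          (rhoCurve b₀ c₀ (b i) (c i) - rhoBase b₀ c₀)) ∧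
      -- the Euler product, for every model
      ∀ (R : Type) [CommRing R] [IsDomain R] [Algebra.FiniteType ℤ R] [Algebra R E]
        [IsFractionRing R E] (G : R[X]), G.Monic →
        G.map (algebraMap R E) = (pencil b₀ c₀ w).map (algebraMap K E) →
        (∃ N : R, N ≠ 0 ∧ ∀ y : MaximalSpectrum R, N ∉ y.asIdeal → (2 : R) ∉ y.asIdeal ∧
          (G.map (Ideal.Quotient.mk y.asIdeal)).Separable) ∧
        ∀ N : R, N ≠ 0 → ∃ Φ : ℂ → ℂ,
          (∀ s : ℂ, ((d + r + 2 : ℕ) : ℝ) + 1 / 2 < s.re →
            HasProd (fun y : {y : MaximalSpectrum R // N ∉ y.asIdeal} =>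
              factor G y.1 ((norm y.1 : ℂ) ^ (-s))) (Φ s)) ∧
          DifferentiableOn ℂ Φ {s : ℂ | ((d + r + 2 : ℕ) : ℝ) < s.re} ∧
          MeromorphicAt Φ ((d + r + 2 : ℕ) : ℂ) ∧
          meromorphicOrderAt Φ ((d + r + 2 : ℕ) : ℂ) =
            (((rhoBase b₀ c₀ + ∑ i ∈ Finset.univ.filter (fun i => y i ∈ E),
              (rhoCurve b₀ c₀ (b i) (c i) - rhoBase b₀ c₀) : ℕ) : ℤ) :
              WithTop ℤ) := by
  have hF : ∀ b c : M[X], pencil b c w = Pool.Agent.R410.CB.fq 0 b c w := by
    intro b c
    rw [Pool.Agent.R410.CB.fq_eq, Pool.Agent.Y707.PC.up_def, Pool.Agent.Y707.PC.up_def,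
      Pool.Agent.Y707.PC.up_def, Polynomial.map_zero, mul_zero, add_zero]
    rfl
  have h0c : (0 : M[X]).natDegree < c₀.natDegree := by rw [natDegree_zero]; exact hc₀.2.pos
  have hnd : (pencil b₀ c₀ w).natDegree = c₀.natDegree := by
    rw [hF, Pool.Agent.R410.CB.deg_fq h0c hb₀.2]
  have hmon : (pencil b₀ c₀ w).Monic := by
    rw [Monic, leadingCoeff, hnd]
    unfold pencil
    rw [coeff_add, coeff_C_mul, coeff_map, coeff_map, coeff_eq_zero_of_natDegree_lt hb₀.2]
    have : c₀.coeff c₀.natDegree = 1 := hc₀.1
    rw [this, map_one, map_zero, mul_zero, add_zero]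
  have hSp : ∀ {L : Type} [Field L] (a b c δ : L[X]), IsSplit a b c δ ↔
      ∃ r s : L[X], Pool.Agent.R410.CB.Spl a b c δ r s := by
    intro L _ a b c δ
    constructor
    · rintro ⟨r, s, h1, h2, h3, h4⟩
      exact ⟨r, s, h1, h2, h3, h4⟩
    · rintro ⟨r, s, h⟩
      exact ⟨r, s, h.ha, h.hb, h.hc, h.ne⟩
  have hσ : ∀ {L : Type} [Field L] (a b c : L[X]), sigma a b c =
      Nat.card (Pool.Agent.R410.NG.SplT a b c) := fun {L} _ a b c =>
    Nat.card_congr (Equiv.subtypeEquivRight fun δ => by rw [hSp a b c δ])
  have hn1 : rhoBase b₀ c₀ = Pool.Agent.R410.NG.nn1 b₀ c₀ := by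
    unfold rhoBase rho Pool.Agent.R410.NG.nn1
    rw [if_neg (fun h => h.1 rfl), Nat.sub_zero, hσ]
  have hn2 : ∀ i, rhoCurve b₀ c₀ (b i) (c i) =
      Pool.Agent.R410.NG.nn2 (RatFunc.X : RatFunc M) (b i) (c i) b₀ c₀ := by
    intro i
    unfold rhoCurve rho
    rw [hσ]
    rfl
  have ht : Transcendental M (RatFunc.X : RatFunc M) := by
    rw [transcendental_iff_injective]
    intro p q h
    apply RatFunc.algebraMap_injective M
    rwa [RatFunc.aeval_X_left_eq_algebraMap, RatFunc.aeval_X_left_eq_algebraMap] at h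
  have hL : IntermediateField.adjoin M {(RatFunc.X : RatFunc M)} = ⊤ := RatFunc.adjoin_X
  have hcL : CharZero (RatFunc M) := charZero_of_injective_algebraMap
    (algebraMap M (RatFunc M)).injective
  have hm₀ : (Pool.Agent.R410.CB.fq 0 b₀ c₀ w).Monic := by
    rw [← hF]
    exact hmon
  have hsep₀ : (Pool.Agent.R410.CB.fq 0 b₀ c₀ w).Separable := by
    rw [← hF]
    exact hs₀
  have hsep : ∀ i, (Pool.Agent.R410.CB.fq 0 (b i) (c i) w).Separable := fun i => by
    rw [← hF]
    exact hs i
  refine ⟨?_, ?_⟩
  · obtain ⟨L, i1, i2, x, y, h1, h2, h3⟩ := Pool.Agent.N863.PE.exists_ffc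
      (fun i => pencil (b i) (c i) w)
    exact ⟨L, i1, i2, x, y, h1, h2, h3⟩
  · intro L _ _ _ x y hfun E hE
    have hx := hfun.indep
    have hy : ∀ i, y i ^ 2 = aeval (x i) (Pool.Agent.R410.CB.fq 0 (b i) (c i) w) := fun i => by
      rw [← hF]
      exact hfun.curve i
    have htop := hfun.gen
    set I : Finset (Fin r) := Finset.univ.filter (fun i => y i ∈ E) with hIdef
    have hI : ∀ i, i ∈ I ↔ y i ∈ E := by
      intro i
      rw [hIdef, Finset.mem_filter]
      simp
    obtain ⟨r1, r2⟩ := Pool.Agent.V5helper48.HP.penM_rank hM hd hw hK ht hL hb₀.1 hc₀.2 hm₀ hb₀.2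
      (fun i => (hb i).1) (fun i => (hc i).2) (fun i => (hb i).2) hsep hsep₀ hx hy htop E hE hI
    have htrK := Pool.Agent.R410.NG.trdeg_line hd hw hK
    have hKF := Pool.Agent.R410.NG.fg_line hM hK
    have hpos : ∀ i, 0 < (Pool.Agent.R410.CB.fq 0 (b i) (c i) w).natDegree := fun i => by
      rw [Pool.Agent.R410.CB.deg_fq (by rw [natDegree_zero]; exact (hc i).2.pos) (hb i).2]
      exact (hc i).2.pos
    have htrE := (Pool.Agent.V5helper48.HP.fgM hKF htrK hx hpos hsep hy htop E hE).2
    refine ⟨by rw [htrE]; congr 1; omega, ?_, ?_, ?_⟩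
    · intro i
      rw [hn1, hn2]
      exact r1 i
    · unfold ClassGroupHasRank
      rw [hF, hn1]
      simp only [hn2]
      exact r2
    · intro R _ _ _ _ _ G hG hGL
      have hcE : CharZero E := charZero_of_injective_algebraMap (algebraMap K E).injective
      refine ⟨?_, ?_⟩
      · exact Pool.Agent.R410.EP.exists_good (K := E) (by rw [hGL]; exact hs₀.map)
      · intro N hN
        obtain ⟨-, Φ, p1, p2, p3, p4⟩ := Pool.Agent.V5helper48.HP.penM_euler hM hd hw hK ht hL hb₀.1
          hc₀.2 hm₀ hb₀.2 (fun i => (hb i).1) (fun i => (hc i).2) (fun i => (hb i).2)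
          (fun i => (hc i).1) hsep hsep₀ hx hy htop E hE hI hG (by rw [hGL, hF]) hN
        have e1 : (((d + 1 + r : ℕ) : ℂ) + 1) = ((d + r + 2 : ℕ) : ℂ) := by
          push_cast
          ring
        rw [e1] at p3 p4
        refine ⟨Φ, ?_, ?_, p3, ?_⟩
        · intro s hs
          refine p1 s ?_
          push_cast at hs ⊢
          linarith
        · refine p2.mono ?_
          intro t ht
          rw [Set.mem_ofPred_eq] at ht ⊢
          push_cast at ht ⊢
          linarith
        · rw [p4, hn1]
          simp only [hn2]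
          congr 1
          push_cast
          congr 1
          refine Finset.sum_congr rfl fun i _ => ?_
          rw [Nat.cast_sub (r1 i)]

end Pool.Agent.Results.MP_9faec4_nt.HyperellipticPencilQuotients
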