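import Pool.Agent.V5helper48.HP.Tw2
import Pool.Agent.R410.EP.Sep

/-!
# Tate's form of the Birch–Swinnerton-Dyer conjecture: twists of curves of arbitrary genus by products of polynomials in separate variables

Let `K` be a finitely generated field of characteristic zero and of transcendence degree `e` over `ℚ`,
and let `X : Y² = F₀(X)` be a hyperelliptic curve of any genus over `K`, `F₀` monic and separable of
odd degree.  Let `L = K(x_1, ..., x_r)`, `r ≥ 2`, be a purely transcendental extension, and let
`D = f_1(x_1) ⋯ f_r(x_r)`, where the polynomials `f_i` over `K` are separable of positive degree.  Let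
`X_D : D Y² = F₀(X)` be the quadratic twist of `X` over `L`, and `J_D` its Jacobian.  In the coordinates
`D X`, `D ^ ((m + 1) / 2) Y` the curve is `Y² = F(X)`, where `F(X) = D ^ m F₀(X / D)`, `m = deg F₀`, and
`J_D(L)` is the class group of the ring `L[X, Y] / (Y² - F(X))`, since `X_D` has one point at infinity and
it is rational.

We prove Tate's conjecture (Q1) for `X_D` over `L`, with `n = e + r + 1 = trdeg L + 1`, the dimension of
the models: without any hypothesis on `K` and on `X`.

* The group `J_D(L)` is finite and killed by `2`; its rank is `0`.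
* For each integral domain `R`, finitely generated over `ℤ` and with the field of fractions `L`, each monic
  `G ∈ R[X]` which is `F` over `L`, and each `N ≠ 0` in `R`, the Euler product over the closed
  points `y` of `Spec R[1/N]` converges for `Re s > n + 1/2`, and it continues to a holomorphic function
  without zeros on the whole strip, `Re s > n - 1/2`.  In particular its order at `s = n` is `0`, the rank
  of `J_D(L)`.  The local factor `P_{y,1}(q_y^{-s})⁻¹` is `exp (∑_{j ≥ 1} a_j T ^ j / j)`, where
  `T = q_y ^ {-s}` and `a_j = q_y ^ j - #(affine points over the extension of degree j)` is the trace on `H¹`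
  of the `j`-th power of the Frobenius of the fibre.  For suitable `N` all fibres are smooth.
-/

set_option autoImplicit false

namespace Pool.Agent.Results.MP_9faec4_nt.ProductTwistsAllGenera

open Polynomial

/-- The polynomial `D ^ m F₀(X / D)`, `m = deg F₀`: the quadratic twist `D Y² = F₀(X)` of the curve
`Y² = F₀(X)` is `Y² = D ^ m F₀(X / D)`, in the coordinates `D X`, `D ^ ((m + 1) / 2) Y`. -/
noncomputable def twist {L : Type} [Field L] (F₀ : L[X]) (D : L) : L[X] :=
  ∑ i ∈ Finset.range (F₀.natDegree + 1), C (F₀.coeff i * D ^ (F₀.natDegree - i)) * X ^ i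

/-- The number of the points `(x, y)` of the affine curve `y² = g(x)` over the algebraic closure of the field
`k` with `x ^ n = x` and `y ^ n = y`: if `k` has `q` elements and `n = q ^ j`, these are the points over the
extension of `k` of degree `j`. -/
noncomputable def points (k : Type) [Field k] (g : k[X]) (n : ℕ) : ℕ :=
  Nat.card {P : AlgebraicClosure k × AlgebraicClosure k //
    P.1 ^ n = P.1 ∧ P.2 ^ n = P.2 ∧ P.2 ^ 2 = aeval P.1 g}

/-- The number `q_y` of the elements of the residue field of a closed point. -/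
noncomputable def norm {R : Type} [CommRing R] (y : MaximalSpectrum R) : ℕ := Nat.card (R ⧸ y.asIdeal)

/-- The trace on `H¹` of the `j`-th power of the Frobenius of the fibre of the curve `Y² = G(X)`: the number
`q_y ^ j - #(affine points of the fibre over the extension of degree j)`. -/
noncomputable def trace {R : Type} [CommRing R] (G : R[X]) (y : MaximalSpectrum R) (j : ℕ) : ℝ :=
  letI : Field (R ⧸ y.asIdeal) := Ideal.Quotient.field y.asIdeal
  ((norm y ^ j : ℕ) : ℝ) - points (R ⧸ y.asIdeal) (G.map (Ideal.Quotient.mk y.asIdeal)) (norm y ^ j)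

/-- The local factor `det(1 - Frob_y T | H¹)⁻¹ = exp (∑_{j ≥ 1} a_j T ^ j / j)`. -/
noncomputable def factor {R : Type} [CommRing R] (G : R[X]) (y : MaximalSpectrum R) (T : ℂ) : ℂ :=
  Complex.exp (∑' j : ℕ, (trace G y (j + 1) : ℂ) / ((j + 1 : ℕ) : ℂ) * T ^ (j + 1))

/-- **Tate's conjecture, rank and order, for the twists of the Jacobians of all hyperelliptic curves with a
rational point at infinity, over all finitely generated fields of characteristic zero, by the products
`f_1(x_1) ⋯ f_r(x_r)`, `r ≥ 2`.** -/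
theorem result {K : Type} [Field K] [CharZero K]
    (hK : ∃ S : Finset K, Subfield.closure (S : Set K) = ⊤) {e : ℕ} (he : Algebra.trdeg ℚ K = e)
    {F₀ : K[X]} (hF₀ : F₀.Monic ∧ Odd F₀.natDegree ∧ F₀.Separable)
    {r : ℕ} (hr : 2 ≤ r) {f : Fin r → K[X]} (hf : ∀ i, 0 < (f i).natDegree ∧ (f i).Separable)
    {L : Type} [Field L] [CharZero L] [Algebra K L] {x : Fin r → L} (hx : AlgebraicIndependent K x)
    (hL : IntermediateField.adjoin K (Set.range x) = ⊤) :
    Algebra.trdeg ℚ L = (e + r : ℕ) ∧
    ∀ F : L[X], F = twist (F₀.map (algebraMap K L)) (∏ i, aeval (x i) (f i)) →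
      F.Monic ∧ F.natDegree = F₀.natDegree ∧ F.Separable ∧
      -- the Jacobian
      (∃ _ : IsDomain (AdjoinRoot (X ^ 2 - C F : L[X][X])),
        Finite (ClassGroup (AdjoinRoot (X ^ 2 - C F : L[X][X]))) ∧
        (∀ c : ClassGroup (AdjoinRoot (X ^ 2 - C F : L[X][X])), c * c = 1) ∧
        Module.rank ℤ (Additive (ClassGroup (AdjoinRoot (X ^ 2 - C F : L[X][X])))) = 0) ∧
      -- the Euler product, for every model
      ∀ (R : Type) [CommRing R] [IsDomain R] [Algebra.FiniteType ℤ R] [Algebra R L]
        [IsFractionRing R L] (G : R[X]), G.Monic → G.map (algebraMap R L) = F →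
        (∃ N : R, N ≠ 0 ∧ ∀ y : MaximalSpectrum R, N ∉ y.asIdeal → (2 : R) ∉ y.asIdeal ∧
          (G.map (Ideal.Quotient.mk y.asIdeal)).Separable) ∧
        ∀ N : R, N ≠ 0 → ∃ Φ : ℂ → ℂ,
          (∀ s : ℂ, ((e + r + 1 : ℕ) : ℝ) + 1 / 2 < s.re →
            HasProd (fun y : {y : MaximalSpectrum R // N ∉ y.asIdeal} =>
              factor G y.1 ((norm y.1 : ℂ) ^ (-s))) (Φ s)) ∧
          DifferentiableOn ℂ Φ {s : ℂ | ((e + r + 1 : ℕ) : ℝ) - 1 / 2 < s.re} ∧
          (∀ s, Φ s ≠ 0) ∧
          meromorphicOrderAt Φ ((e + r + 1 : ℕ) : ℂ) = 0 := by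
  refine ⟨Pool.Agent.V5helper48.HP.trdeg_mv he hx hL, ?_⟩
  intro F hF
  have htw : F = (F₀.map (algebraMap K L)).scaleRoots (∏ i, aeval (x i) (f i)) := by
    rw [hF, twist]
    ext n
    rw [finsetSum_coeff, coeff_scaleRoots]
    simp only [coeff_C_mul, coeff_X_pow, mul_ite, mul_one, mul_zero]
    rw [Finset.sum_ite_eq (Finset.range ((F₀.map (algebraMap K L)).natDegree + 1)) n]
    split_ifs with hn
    · rfl
    · rw [coeff_eq_zero_of_natDegree_lt (by simpa using hn), zero_mul]
  obtain ⟨hsep, hcl⟩ := Pool.Agent.V5helper48.HP.tw_class hx (by omega) hL (fun i => (hf i).1)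
    (fun i => (hf i).2) hF₀.1 hF₀.2.1 hF₀.2.2 rfl htw
  refine ⟨?_, ?_, hsep, hcl, ?_⟩
  · rw [htw]
    exact (monic_scaleRoots_iff _).2 (hF₀.1.map _)
  · rw [htw, natDegree_scaleRoots, natDegree_map]
  intro R _ _ _ _ _ G hG hGL
  refine ⟨?_, ?_⟩
  · exact Pool.Agent.R410.EP.exists_good (K := L) (by rw [hGL]; exact hsep)
  intro N hN
  obtain ⟨Φ, h1, h2, h3⟩ := Pool.Agent.V5helper48.HP.tw_euler hK he hx (by omega) hL
    (fun i => (hf i).1) (fun i => (hf i).2) hF₀.1 hF₀.2.1 rfl hG (hGL.trans htw) hN
  refine ⟨Φ, ?_, ?_, h3, ?_⟩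
  · intro s hs
    refine h1 s ?_
    push_cast at hs ⊢
    linarith
  · refine h2.mono ?_
    intro t ht
    rw [Set.mem_ofPred_eq] at ht ⊢
    push_cast at ht ⊢
    linarith
  · refine (Pool.Agent.V5helper48.HP.ord_zero h2 h3 ?_).2
    rw [Complex.natCast_re]
    push_cast
    linarith

end Pool.Agent.Results.MP_9faec4_nt.ProductTwistsAllGenera
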