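import Pool.Agent.V5helper48.HP.Pm7
import Pool.Agent.R410.EP.Sep

/-!
# Tate's form of the Birch–Swinnerton-Dyer conjecture over the function fields of symmetric powers and of Jacobians of hyperelliptic curves

Let `K` be a finitely generated field of characteristic zero, of transcendence degree `e` over `ℚ`, and
`X : Y² = F₀(X)` a hyperelliptic curve of any genus over `K`, `F₀` monic and separable of odd degree, `J` its
Jacobian.  Let `C_i : y_i² = f_i(x_i)`, `i < r`, be double coverings of the line over `K`, where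
the `f_i` are arbitrary separable polynomials of positive degree, and `L = K(x_1, y_1, ..., x_r, y_r)` the
function field of `C_1 × ... × C_r`.  Let `Γ` be any group of permutations of the indices with
`f_{γ i} = f_i`: it acts on the product by the permutations of the factors, and so on `L`.  Let `E = L ^ Γ` be the
function field of the quotient of the product by `Γ`.  For instance, if all the curves are equal to
`C` and `Γ` is the symmetric group, `E` is the function field of the symmetric power `Sym^r C`, and if `r` is the genus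
of `C : y² = f(x)` and the degree of `f` is odd, `E` is the function field of the Jacobian of `C`; the products of
symmetric powers and of such Jacobians of several curves are further examples.  Let `I` be a system of representatives of the orbits
of `Γ`.  No hypothesis is made on the conjecture for `X`.

* (Rank.) There are cardinals `ρ`, `κ_i` such that the ranks of `J` over `K`, over the function fields
  `K(x_i, y_i)` of the curves and over `E` are `ρ`, `ρ + κ_i` and `ρ + ∑_{i ∈ I} κ_i`.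
* (L-functions.) Let `n = e + r + 1` be the dimension of the models of `E`.  For all models, the Euler products
  `Φ₁` of `X` over `E`, over `K` and over `K(x_i, y_i)` satisfy, for `Re s > n + 1/2`,
  `Φ_E(s) Φ_K(s - r) ^ #I = H(s) Φ_K(s - r) ∏_{i ∈ I} Φ_i(s - r + 1)`, where `H` is holomorphic without zeros
  on the whole strip, `Re s > n - 1/2`.
* (Orders.) If `Φ_K` and the `Φ_i`, `i ∈ I`, continue meromorphically to neighbourhoods of the rays
  `[e + 1, ∞)`, `[e + 2, ∞)`, with the orders `m₀`, `m_i` at the end points, then, for all models, so does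
  `Φ_E` to a neighbourhood of `[n, ∞)`, with the order `m₀ + ∑_{i ∈ I} (m_i - m₀)` at `n`.
* (Tate's conjecture.) If Tate's conjecture (the rank is finite and equal to the order) holds for `X` over `K`
  and over the fields `K(x_i, y_i)`, `i ∈ I`, then it holds for `X` over `E`.  If `Γ` is transitive, for
  instance for `Sym^r C` and for the Jacobian of `C` (degree odd), it holds for `X` over `E` if and only if it
  holds for `X` over the function field of `C`.
-/

set_option autoImplicit false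

namespace Pool.Agent.Results.MP_9faec4_nt.SymmetricPowersAndJacobians

open Polynomial

/-- `L = K(x_1, y_1, ..., x_r, y_r)` is the function field of the product of the curves
`y_i² = f_i(x_i)`. -/
structure IsFunctionField {K L : Type} [Field K] [Field L] [Algebra K L] {r : ℕ} (f : Fin r → K[X])
    (x y : Fin r → L) : Prop where
  indep : AlgebraicIndependent K x
  curve : ∀ i, y i ^ 2 = aeval (x i) (f i)
  gen : IntermediateField.adjoin K (Set.range x ∪ Set.range y) = ⊤

/-- The rank of the class group of the ring `L[X, Y] / (Y² - F(X))` is `ρ`. -/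
def HasRank {L : Type} [Field L] (F : L[X]) (ρ : Cardinal.{0}) : Prop :=
  ∃ _ : IsDomain (AdjoinRoot (X ^ 2 - C F : L[X][X])),
    Module.rank ℤ (Additive (ClassGroup (AdjoinRoot (X ^ 2 - C F : L[X][X])))) = ρ

/-- The number of the points `(x, y)` of the affine curve `y² = g(x)` over the algebraic closure of the field
`k` with `x ^ n = x` and `y ^ n = y`: if `k` has `q` elements and `n = q ^ j`, these are the points over the
extension of `k` of degree `j`. -/
noncomputable def points (k : Type) [Field k] (g : k[X]) (n : ℕ) : ℕ :=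
  Nat.card {P : AlgebraicClosure k × AlgebraicClosure k //
    P.1 ^ n = P.1 ∧ P.2 ^ n = P.2 ∧ P.2 ^ 2 = aeval P.1 g}

/-- The number `q_y` of the elements of the residue field of a closed point. -/
noncomputable def norm {R : Type} [CommRing R] (y : MaximalSpectrum R) : ℕ := Nat.card (R ⧸ y.asIdeal)

/-- The trace on `H¹` of the `j`-th power of the Frobenius of the fibre of the curve `Y² = G(X)`: the number
`q_y ^ j - #(affine points of the fibre over the extension of degree j)`. -/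
noncomputable def trace {R : Type} [CommRing R] (G : R[X]) (y : MaximalSpectrum R) (j : ℕ) : ℝ :=
  letI : Field (R ⧸ y.asIdeal) := Ideal.Quotient.field y.asIdeal
  ((norm y ^ j : ℕ) : ℝ) - points (R ⧸ y.asIdeal) (G.map (Ideal.Quotient.mk y.asIdeal)) (norm y ^ j)

/-- The local factor `det(1 - Frob_y T | H¹)⁻¹ = exp (∑_{j ≥ 1} a_j T ^ j / j)`. -/
noncomputable def factor {R : Type} [CommRing R] (G : R[X]) (y : MaximalSpectrum R) (T : ℂ) : ℂ :=
  Complex.exp (∑' j : ℕ, (trace G y (j + 1) : ℂ) / ((j + 1 : ℕ) : ℂ) * T ^ (j + 1))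

/-- A model of the curve `Y² = F(X)` over the field `L`: the curve `Y² = G(X)` over `Spec R[1/N]`, where
`R` is an integral domain, finitely generated over `ℤ`, with the field of fractions `L`, and the monic
polynomial `G` is `F` over `L`. -/
structure IsModel {L R : Type} [Field L] [CommRing R] [Algebra R L] (F : L[X]) (G : R[X]) (N : R) :
    Prop where
  domain : IsDomain R
  finiteType : Algebra.FiniteType ℤ R
  fraction : IsFractionRing R L
  monic : G.Monic
  map : G.map (algebraMap R L) = F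
  ne : N ≠ 0

/-- The Euler product over the closed points of `Spec R[1/N]` converges at `s` to `z`. -/
def IsValue {R : Type} [CommRing R] (G : R[X]) (N : R) (s z : ℂ) : Prop :=
  HasProd (fun y : {y : MaximalSpectrum R // N ∉ y.asIdeal} => factor G y.1 ((norm y.1 : ℂ) ^ (-s))) z

/-- The Euler product converges for `Re s > n + 1/2` and it continues to a meromorphic function on a
neighbourhood of this half-plane and of the ray `[n, ∞)`, with the order `m` at `n`. -/
def HasOrder {R : Type} [CommRing R] (G : R[X]) (N : R) (n : ℕ) (m : ℤ) : Prop :=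
  ∃ (U : Set ℂ) (Φ : ℂ → ℂ), IsOpen U ∧ (∀ s : ℂ, (n : ℝ) + 1 / 2 < s.re → s ∈ U) ∧
    (∀ t : ℝ, (n : ℝ) ≤ t → (t : ℂ) ∈ U) ∧ MeromorphicOn Φ U ∧
    (∀ s : ℂ, (n : ℝ) + 1 / 2 < s.re → IsValue G N s (Φ s)) ∧
    meromorphicOrderAt Φ (n : ℂ) = (m : WithTop ℤ)

/-- The order for some model of `Y² = F(X)`. -/
def OrderSome {L : Type} [Field L] (F : L[X]) (n : ℕ) (m : ℤ) : Prop :=
  ∃ (R : Type) (_ : CommRing R) (_ : Algebra R L) (G : R[X]) (N : R), IsModel F G N ∧ HasOrder G N n m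

/-- The order for all models of `Y² = F(X)`. -/
def OrderAll {L : Type} [Field L] (F : L[X]) (n : ℕ) (m : ℤ) : Prop :=
  ∀ (R : Type) [CommRing R] [Algebra R L] (G : R[X]) (N : R), IsModel F G N → HasOrder G N n m

/-- **Tate's conjecture** for the curve `Y² = F(X)` over the finitely generated field `L`, for all models:
`n` is the dimension of the models. -/
def Tate {L : Type} [Field L] (F : L[X]) (n : ℕ) : Prop :=
  ∃ ρ : ℕ, HasRank F ρ ∧ OrderSome F n ρ ∧ OrderAll F n ρ

/-- The polynomial `F₀` over the field `K(x, y)`. -/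
noncomputable def overCurve {K L : Type} [Field K] [Field L] [Algebra K L] (F₀ : K[X]) (x y : L) :
    (IntermediateField.adjoin K {x, y})[X] :=
  F₀.map (algebraMap K (IntermediateField.adjoin K {x, y}))

/-- The function field of the quotient of the product by the group `Γ` of permutations: the field of the
elements of `L` fixed by the automorphisms `σ` over `K` with `σ x_i = x_{γ i}`, `σ y_i = y_{γ i}`, `γ ∈ Γ`. -/
def quotientField {K L : Type} [Field K] [Field L] [Algebra K L] {r : ℕ} (x y : Fin r → L)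
    (Γ : Subgroup (Equiv.Perm (Fin r))) : IntermediateField K L where
  carrier := {z | ∀ σ : L ≃ₐ[K] L, (∃ γ ∈ Γ, ∀ i, σ (x i) = x (γ i) ∧ σ (y i) = y (γ i)) → σ z = z}
  mul_mem' ha hb σ h := by rw [map_mul, ha σ h, hb σ h]
  add_mem' ha hb σ h := by rw [map_add, ha σ h, hb σ h]
  algebraMap_mem' a σ _ := σ.commutes a
  inv_mem' a ha σ h := by rw [map_inv₀, ha σ h]

/-- The finite set `I` contains exactly one element of each orbit of `Γ`. -/
def IsSystem {r : ℕ} (Γ : Subgroup (Equiv.Perm (Fin r))) (I : Finset (Fin r)) : Prop :=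
  ∀ i, ∃! j, j ∈ I ∧ ∃ γ ∈ Γ, γ j = i

/-- The law of the ranks: the ranks over `K`, over `K(x_i, y_i)` and over `E` are `ρ`, `ρ + κ_i`
and `ρ + ∑_{i ∈ I} κ_i`. -/
def RankLaw {K L : Type} [Field K] [Field L] [Algebra K L] {r : ℕ} (F₀ : K[X]) (x y : Fin r → L)
    (E : IntermediateField K L) (I : Finset (Fin r)) : Prop :=
  ∃ (ρ : Cardinal.{0}) (κ : Fin r → Cardinal.{0}), HasRank F₀ ρ ∧
    (∀ i, HasRank (overCurve F₀ (x i) (y i)) (ρ + κ i)) ∧
    HasRank (F₀.map (algebraMap K E)) (ρ + ∑ i ∈ I, κ i)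

/-- The law of the Euler products, where `n` is the dimension of the models of `E`. -/
def EulerLaw {K L : Type} [Field K] [Field L] [Algebra K L] {r : ℕ} (F₀ : K[X]) (x y : Fin r → L)
    (E : IntermediateField K L) (I : Finset (Fin r)) (n : ℕ) : Prop :=
  ∀ (R : Type) [CommRing R] [Algebra R E] (G : R[X]) (N : R), IsModel (F₀.map (algebraMap K E)) G N →
  ∀ (R₀ : Type) [CommRing R₀] [Algebra R₀ K] (G₀ : R₀[X]) (N₀ : R₀), IsModel F₀ G₀ N₀ →
  ∀ (S : Fin r → Type) [∀ i, CommRing (S i)]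
    [∀ i, Algebra (S i) (IntermediateField.adjoin K {x i, y i})] (g : ∀ i, (S i)[X]) (ν : ∀ i, S i),
    (∀ i ∈ I, IsModel (overCurve F₀ (x i) (y i)) (g i) (ν i)) →
  ∃ H : ℂ → ℂ, DifferentiableOn ℂ H {s : ℂ | (n : ℝ) - 1 / 2 < s.re} ∧ (∀ s, H s ≠ 0) ∧
    ∀ s : ℂ, (n : ℝ) + 1 / 2 < s.re → ∃ (z z₀ : ℂ) (z' : Fin r → ℂ),
      IsValue G N s z ∧ IsValue G₀ N₀ (s - r) z₀ ∧
      (∀ i ∈ I, IsValue (g i) (ν i) (s - r + 1) (z' i)) ∧
      z ≠ 0 ∧ z₀ ≠ 0 ∧ (∀ i ∈ I, z' i ≠ 0) ∧ z * z₀ ^ I.card = H s * z₀ * ∏ i ∈ I, z' i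

/-- The law of the orders, where `e + 1`, `e + 2` and `e + r + 1` are the dimensions of the models of `K`,
`K(x_i, y_i)` and `E`. -/
def OrderLaw {K L : Type} [Field K] [Field L] [Algebra K L] {r : ℕ} (F₀ : K[X]) (x y : Fin r → L)
    (E : IntermediateField K L) (I : Finset (Fin r)) (e : ℕ) : Prop :=
  ∀ (m₀ : ℤ) (m : Fin r → ℤ), OrderSome F₀ (e + 1) m₀ →
    (∀ i ∈ I, OrderSome (overCurve F₀ (x i) (y i)) (e + 2) (m i)) →
    OrderAll (F₀.map (algebraMap K E)) (e + r + 1) (m₀ + ∑ i ∈ I, (m i - m₀))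

/-- **The reduction of Tate's conjecture from the function field of the quotient of `C_1 × ... × C_r` by a group
of permutations to `K` and the function fields of the `C_i`.** -/
theorem result {K : Type} [Field K] [CharZero K]
    (hK : ∃ S : Finset K, Subfield.closure (S : Set K) = ⊤) {e : ℕ} (he : Algebra.trdeg ℚ K = e)
    {F₀ : K[X]} (hF₀ : F₀.Monic ∧ Odd F₀.natDegree ∧ F₀.Separable)
    {r : ℕ} {f : Fin r → K[X]} (hf : ∀ i, 0 < (f i).natDegree ∧ (f i).Separable)
    (Γ : Subgroup (Equiv.Perm (Fin r))) (hΓ : ∀ γ ∈ Γ, ∀ i, f (γ i) = f i)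
    {I : Finset (Fin r)} (hI : IsSystem Γ I) :
    -- the function field exists
    (∃ (L : Type) (_ : Field L) (_ : Algebra K L) (x y : Fin r → L), IsFunctionField f x y) ∧
    ∀ (L : Type) [Field L] [CharZero L] [Algebra K L] (x y : Fin r → L), IsFunctionField f x y →
      -- the action of the group
      (∀ γ ∈ Γ, ∃! σ : L ≃ₐ[K] L, ∀ i, σ (x i) = x (γ i) ∧ σ (y i) = y (γ i)) ∧
      ∀ E : IntermediateField K L, E = quotientField x y Γ →
      Algebra.trdeg ℚ E = (e + r : ℕ) ∧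
      RankLaw F₀ x y E I ∧ EulerLaw F₀ x y E I (e + r + 1) ∧ OrderLaw F₀ x y E I e ∧
      (Tate F₀ (e + 1) → (∀ i ∈ I, Tate (overCurve F₀ (x i) (y i)) (e + 2)) →
        Tate (F₀.map (algebraMap K E)) (e + r + 1)) ∧
      (∀ i, I = {i} → (Tate (F₀.map (algebraMap K E)) (e + r + 1) ↔
        Tate (overCurve F₀ (x i) (y i)) (e + 2))) := by
  classical
  have c1 : ∀ {L R : Type} [Field L] [CommRing R] [Algebra R L] {F : L[X]} {G : R[X]} {N : R},
      IsModel F G N → Pool.Agent.V5helper48.HP.Mdl F G N := fun h =>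
    ⟨h.domain, h.finiteType, h.fraction, h.monic, h.map, h.ne⟩
  have c2 : ∀ {L R : Type} [Field L] [CommRing R] [Algebra R L] {F : L[X]} {G : R[X]} {N : R},
      Pool.Agent.V5helper48.HP.Mdl F G N → IsModel F G N := fun h =>
    ⟨h.domain, h.finiteType, h.fraction, h.monic, h.map, h.ne⟩
  have c3 : ∀ {L : Type} [Field L] {F : L[X]} {n : ℕ} {m : ℤ}, OrderSome F n m →
      Pool.Agent.V5helper48.HP.SO F n m := by
    rintro L _ F n m ⟨R, c, a, G, N, h1, h2⟩
    exact ⟨R, c, a, G, N, c1 h1, h2⟩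
  have c4 : ∀ {L : Type} [Field L] {F : L[X]} {n : ℕ} {m : ℤ},
      Pool.Agent.V5helper48.HP.SO F n m → OrderSome F n m := by
    rintro L _ F n m ⟨R, c, a, G, N, h1, h2⟩
    exact ⟨R, c, a, G, N, c2 h1, h2⟩
  have c5 : ∀ {L : Type} [Field L] {F : L[X]} {n : ℕ} {m : ℤ},
      Pool.Agent.V5helper48.HP.AO F n m → OrderAll F n m := by
    intro L _ F n m h R _ _ G N h1
    exact h R G N (c1 h1)
  have hF₀1 := hF₀.1
  have hF₀2 := hF₀.2.1
  have hF₀3 := hF₀.2.2
  have hI1 : ∀ i, ∃ j ∈ I, ∃ γ ∈ Γ, γ j = i := by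
    intro i
    obtain ⟨j, ⟨h1, h2⟩, -⟩ := hI i
    exact ⟨j, h1, h2⟩
  have hI2 : ∀ i ∈ I, ∀ j ∈ I, (∃ γ ∈ Γ, γ i = j) → i = j := by
    intro i hi j hj h
    exact (hI j).unique ⟨hi, h⟩ ⟨hj, 1, Γ.one_mem, rfl⟩
  refine ⟨?_, ?_⟩
  · obtain ⟨L, i1, i2, x, y, h1, h2, h3⟩ := Pool.Agent.N863.PE.exists_ffc f
    exact ⟨L, i1, i2, x, y, h1, h2, h3⟩
  intro L _ _ _ x y hfun
  have hx := hfun.indep
  have hy := hfun.curve
  have htop := hfun.gen
  have hpos : ∀ i, 0 < (f i).natDegree := fun i => (hf i).1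
  have hfs : ∀ i, (f i).Separable := fun i => (hf i).2
  refine ⟨?_, ?_⟩
  · intro γ hγ
    obtain ⟨σ, hσ⟩ := Pool.Agent.V5helper48.HP.exists_perm hx hpos hfs hy htop γ (hΓ γ hγ)
    refine ⟨σ, hσ, fun τ hτ => ?_⟩
    have h := Pool.Agent.V5helper48.HP.hom_ext_gen (Ω := L) htop (σ := (τ : L →ₐ[K] L))
      (τ := (σ : L →ₐ[K] L)) (fun i => by
        show τ (x i) = σ (x i)
        rw [(hτ i).1, (hσ i).1]) (fun i => by
        show τ (y i) = σ (y i)
        rw [(hτ i).2, (hσ i).2])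
    exact AlgEquiv.ext fun z => congrArg (fun g : L →ₐ[K] L => g z) h
  intro E hEdef
  have hE : ∀ z, z ∈ E ↔ ∀ σ : L ≃ₐ[K] L,
      (∃ γ ∈ Γ, ∀ i, σ (x i) = x (γ i) ∧ σ (y i) = y (γ i)) → σ z = z := by
    intro z
    rw [hEdef]
    exact Iff.rfl
  obtain ⟨hfgE, htrE⟩ := Pool.Agent.V5helper48.HP.fgP hK he hx hpos hfs hy htop Γ hΓ E hE
  have hrank := Pool.Agent.V5helper48.HP.red_rankP hx hpos hfs hy htop hF₀1 hF₀2 hF₀3 Γ hΓ E hE
    hI1 hI2
  have horder : ∀ (m₀ : ℤ) (m : Fin r → ℤ), OrderSome F₀ (e + 1) m₀ →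
        (∀ i ∈ I,
          OrderSome (F₀.map (algebraMap K (IntermediateField.adjoin K {x i, y i}))) (e + 2) (m i)) →
        Pool.Agent.V5helper48.HP.AO (F₀.map (algebraMap K E)) (e + r + 1)
          (m₀ + ∑ i ∈ I, (m i - m₀)) := by
    intro m₀ m h₀ hi
    exact Pool.Agent.V5helper48.HP.red_orderP hK he hx hpos hfs hy htop hF₀1 hF₀2 Γ hΓ E hE hI1 hI2
      (c3 h₀) (fun i hi' => c3 (hi i hi'))
  have hmE : (F₀.map (algebraMap K E)).Monic := hF₀1.map _
  have htate : Tate F₀ (e + 1) →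
        (∀ i ∈ I, Tate (F₀.map (algebraMap K (IntermediateField.adjoin K {x i, y i}))) (e + 2)) →
        Tate (F₀.map (algebraMap K E)) (e + r + 1) := by
    rintro ⟨ρ₀, ⟨q1, q2⟩, q3, -⟩ hi
    obtain ⟨ρ, κ, ⟨t1, t2⟩, t3, t4⟩ := hrank
    have hρ : ρ = (ρ₀ : Cardinal) := t2.symm.trans q2
    have h1 : ∀ i ∈ I, ∃ ρi : ℕ, κ i = ((ρi - ρ₀ : ℕ) : Cardinal) ∧ ρ₀ ≤ ρi ∧
        OrderSome (F₀.map (algebraMap K (IntermediateField.adjoin K {x i, y i}))) (e + 2) (ρi : ℤ) := by
      intro i hiE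
      obtain ⟨ρi, ⟨a1, a2⟩, a3, -⟩ := hi i hiE
      obtain ⟨b1, b2⟩ := t3 i
      have h2 : (ρi : Cardinal.{0}) = ρ₀ + κ i := by
        rw [← hρ]
        exact a2.symm.trans b2
      obtain ⟨h3, h4⟩ := Pool.Agent.V5helper48.HP.rank_fin h2
      exact ⟨ρi, h4, h3, a3⟩
    choose! σ s1 s2 s3 using h1
    have h5 := horder (ρ₀ : ℤ) (fun i => (σ i : ℤ)) q3 s3
    have h6 : ((ρ₀ : ℤ) + ∑ i ∈ I, ((σ i : ℤ) - ρ₀)) =
        ((ρ₀ + ∑ i ∈ I, (σ i - ρ₀) : ℕ) : ℤ) := by
      push_cast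
      congr 1
      refine Finset.sum_congr rfl fun i hi' => ?_
      rw [Nat.cast_sub (s2 i hi')]
    rw [h6] at h5
    refine ⟨ρ₀ + ∑ i ∈ I, (σ i - ρ₀), ?_,
      c4 (Pool.Agent.V5helper48.HP.SO_of_AO hfgE hmE h5), c5 h5⟩
    obtain ⟨u1, u2⟩ := t4
    refine ⟨u1, u2.trans ?_⟩
    rw [hρ]
    push_cast
    congr 1
    exact Finset.sum_congr rfl fun i hi' => s1 i hi'
  refine ⟨htrE, hrank, ?_, fun m₀ m h₀ hi => c5 (horder m₀ m h₀ hi), fun h₀ hi => htate h₀ hi, ?_⟩
  · intro R _ _ G N hG R₀ _ _ G₀ N₀ hG₀ S _ _ g ν hg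
    obtain ⟨H, h1, h2, h3⟩ := Pool.Agent.V5helper48.HP.red_epP hK he hx hpos hfs hy htop hF₀1 hF₀2 Γ hΓ
      E hE hI1 hI2 (c1 hG) (c1 hG₀) (fun i hi => c1 (hg i hi))
    refine ⟨H, h1, h2, fun s hs => ?_⟩
    obtain ⟨z, z₀, z', a1, a2, a3, a4, a5, a6, a7⟩ := h3 s hs
    exact ⟨z, z₀, z', a1, a2, a3, a4, a5, a6, a7⟩
  · intro i₀ hIi
    subst hIi
    obtain ⟨d1, d2⟩ : (∀ m : ℤ, OrderSome (F₀.map (algebraMap K
          (IntermediateField.adjoin K {x i₀, y i₀}))) (e + 2) m →
        Pool.Agent.V5helper48.HP.AO (F₀.map (algebraMap K E)) (e + r + 1) m) ∧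
        (∀ m : ℤ, OrderSome (F₀.map (algebraMap K E)) (e + r + 1) m →
        Pool.Agent.V5helper48.HP.AO (F₀.map (algebraMap K
          (IntermediateField.adjoin K {x i₀, y i₀}))) (e + 2) m) :=
      ⟨fun m h => (Pool.Agent.V5helper48.HP.red_orb hK he hx hpos hfs hy htop hF₀1 hF₀2 Γ hΓ E hE hI1
        hI2).1 (c3 h), fun m h => (Pool.Agent.V5helper48.HP.red_orb hK he hx hpos hfs hy htop hF₀1 hF₀2
        Γ hΓ E hE hI1 hI2).2 (c3 h)⟩
    have hmC : (F₀.map (algebraMap K (IntermediateField.adjoin K {x i₀, y i₀}))).Monic := hF₀1.map _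
    have hfgC : Pool.Agent.R410.LW.FG (IntermediateField.adjoin K {x i₀, y i₀}) := by
      obtain ⟨x', y', hcf⟩ := Pool.Agent.N863.PE.cf_of hx hy i₀
      refine Pool.Agent.V5helper48.HP.fg_fin hK {x', y'} ?_
      have := hcf.gen
      rwa [Finset.coe_insert, Finset.coe_singleton]
    obtain ⟨ρ, κ, ⟨t1, t2⟩, t3, t4⟩ := hrank
    obtain ⟨b1, b2⟩ := t3 i₀
    obtain ⟨u1, u2⟩ := t4
    rw [Finset.sum_singleton] at u2
    constructor
    · rintro ⟨n, ⟨q1, q2⟩, q3, -⟩
      have h5 := d2 _ q3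
      exact ⟨n, ⟨b1, b2.trans (u2.symm.trans q2)⟩,
        c4 (Pool.Agent.V5helper48.HP.SO_of_AO hfgC hmC h5), c5 h5⟩
    · rintro ⟨n, ⟨q1, q2⟩, q3, -⟩
      have h5 := d1 _ q3
      exact ⟨n, ⟨u1, u2.trans (b2.symm.trans q2)⟩,
        c4 (Pool.Agent.V5helper48.HP.SO_of_AO hfgE hmE h5), c5 h5⟩

end Pool.Agent.Results.MP_9faec4_nt.SymmetricPowersAndJacobians
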